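import Pool.Agent.helper77.PV.SpecK

set_option autoImplicit false

namespace Pool.Agent.PV

open Pool.Agent.CZ Pool.Agent.PVH

theorem KN1_idem {A : Type} [Ring A] : ∀ (m : ℕ), m = 1 → ∀ (e : Matrix (Fin m) (Fin m) A)
    (he : e * e = e), e = 1 → (⟨m, e, he⟩ : IdemMat A) = ⟨1, 1, one_mul 1⟩ := by
  rintro _ rfl e he rfl
  rfl

theorem KN1_unit {A : Type} [Ring A] :
    k0 (1 : Matrix (Fin 1) (Fin 1) A) (one_mul 1) = unitCls A := by
  refine congrArg cls (KN1_idem _ (Fintype.card_fin 1) _ _ ?_)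
  exact Matrix.submatrix_one_equiv _

theorem KN1 (hPVS : PVS_stmt) (hDZP : DZP_stmt) (hRNK : RNK_stmt) : KN1_stmt := by
  intro X _ _ hX α A _ ι u c hc
  have hz := hDZP X α A ι u c hc
  have hi : Continuous ι.toAlgHom.toRingHom :=
    (AddMonoidHomClass.isometry_of_norm ι.toAlgHom hz.isoA).continuous
  have ha : Continuous (alC α : C(X, ℂ) →ₐ[ℂ] C(X, ℂ)).toRingHom :=
    (AddMonoidHomClass.isometry_of_norm (alC α) hz.isoB).continuous
  obtain ⟨d1, d0, -, -, -, -, -, -, -, -, hd⟩ :=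
    hPVS C(X, ℂ) A (alC α) ι.toAlgHom (Unitary.toUnits u) c hi ha hz
  obtain ⟨R, hR⟩ := hRNK X
  obtain ⟨x⟩ := hX
  let ev : C(X, ℤ) →+ ℤ := ⟨⟨fun f => f x, rfl⟩, fun _ _ => rfl⟩
  refine ⟨(ev.comp R).comp d1, ?_⟩
  change R (d1 (k1 (uM Unit (Unitary.toUnits u)))) x = 1
  rw [hd, ← KN1_unit]
  have h := hR (Fin 1) 1 (one_mul 1) x
  have h1 : ∑ i : Fin 1, (1 : Matrix (Fin 1) (Fin 1) C(X, ℂ)) i i x = 1 := by
    simp
  rw [h1] at h
  exact_mod_cast h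

end Pool.Agent.PV
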