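import Pool.Agent.helper53.PV.SpecD

set_option autoImplicit false

namespace Pool.Agent.PV

open Pool.Agent.CZ

theorem LCP (hLFM : LFM_stmt) (hLPX : LPX_stmt) (hLSB : LSB_stmt) (hLUN : LUN_stmt) :
    LCP_stmt := by
  intro X _ _ α
  obtain ⟨I, B, hB, hN, p, hp⟩ := hLFM X α
  obtain ⟨P, hP, q, hq⟩ := hLPX X α I B p
  obtain ⟨A, hA, q', h1, h2⟩ := hLSB X α P q
  refine ⟨A, hA, q'.j, q'.v, hLUN X α A q' h2 ?_⟩
  intro B' _ p' F
  rcases subsingleton_or_nontrivial B' with h | h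
  · rw [Subsingleton.elim (p'.ev F) 0, norm_zero]
    exact norm_nonneg _
  · obtain ⟨i, hi⟩ := hp B' p'
    rw [← hi, h1]
    exact hq i F

end Pool.Agent.PV
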