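import Pool.Agent.helper53.PV.SpecD

set_option autoImplicit false

namespace Pool.Agent.PV

open Pool.Agent.CZ

theorem LFM : LFM_stmt := by
  intro X _ _ α
  have h : ∀ i : {N : (ℤ →₀ C(X, ℂ)) → ℝ // ∃ (B : Type) (_ : CStarAlgebra B) (_ : Nontrivial B)
      (q : CovPair α B), ∀ F, N F = ‖q.ev F‖}, ∃ (B : Type) (_ : CStarAlgebra B) (_ : Nontrivial B)
      (q : CovPair α B), ∀ F, i.1 F = ‖q.ev F‖ := fun i => i.2
  choose B hB hN p hp using h
  refine ⟨_, B, hB, hN, p, ?_⟩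
  intro B' _ _ q
  refine ⟨⟨fun F => ‖q.ev F‖, B', inferInstance, inferInstance, q, fun _ => rfl⟩, fun F => ?_⟩
  exact (hp _ F).symm

end Pool.Agent.PV
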