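import Pool.Agent.helper53.PV.SpecD

set_option autoImplicit false

open scoped ENNReal

namespace Pool.Agent.PV

open Pool.Agent.CZ

theorem LPX_up {A B : Type} [CStarAlgebra A] [CStarAlgebra B] (φ : A →⋆ₐ[ℂ] B) (u : unitary A)
    (v : unitary B) (h : φ (u : A) = v) (n : ℤ) : φ (up u n) = up v n := by
  have h1 : Unitary.map (StarMonoidHom.ofClass φ) u = v := Subtype.ext h
  unfold up
  rw [← h1, ← map_zpow]
  rfl

theorem LPX_ev {X : Type} [TopologicalSpace X] [CompactSpace X] {α : X ≃ₜ X} {A B : Type}
    [CStarAlgebra A] [CStarAlgebra B] (q : CovPair α A) (p : CovPair α B) (φ : A →⋆ₐ[ℂ] B)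
    (h1 : ∀ f, φ (q.j f) = p.j f) (h2 : φ (q.v : A) = p.v) (F : ℤ →₀ C(X, ℂ)) :
    φ (q.ev F) = p.ev F := by
  unfold CovPair.ev
  rw [map_finsuppSum]
  refine Finsupp.sum_congr fun n _ => ?_
  rw [map_mul, h1, LPX_up φ q.v p.v h2]

theorem LPX : LPX_stmt := by
  intro X _ _ α I B _ _ p
  let _i : CStarAlgebra (lp B ∞) := { }
  let j : C(X, ℂ) →⋆ₐ[ℂ] lp B ∞ :=
    { toFun := fun f => ⟨fun i => (p i).j f, memℓp_infty ⟨‖f‖, by
        rintro _ ⟨i, rfl⟩
        exact NonUnitalStarAlgHom.norm_apply_le ((p i).j) f⟩⟩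
      map_one' := by
        refine lp.ext (funext fun i => ?_)
        exact map_one (p i).j
      map_mul' := fun f g => by
        refine lp.ext (funext fun i => ?_)
        exact map_mul (p i).j f g
      map_zero' := by
        refine lp.ext (funext fun i => ?_)
        exact map_zero (p i).j
      map_add' := fun f g => by
        refine lp.ext (funext fun i => ?_)
        exact map_add (p i).j f g
      commutes' := fun z => by
        refine lp.ext (funext fun i => ?_)
        exact (p i).j.toAlgHom.commutes z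
      map_star' := fun f => by
        refine lp.ext (funext fun i => ?_)
        exact map_star (p i).j f }
  let v0 : lp B ∞ := ⟨fun i => ((p i).v : B i), memℓp_infty ⟨1, by
        rintro _ ⟨i, rfl⟩
        exact (CStarRing.norm_coe_unitary (p i).v).le⟩⟩
  have hv0 : v0 ∈ unitary (lp B ∞) := by
    rw [Unitary.mem_iff]
    constructor
    · refine lp.ext (funext fun i => ?_)
      exact Unitary.coe_star_mul_self (p i).v
    · refine lp.ext (funext fun i => ?_)
      exact Unitary.coe_mul_star_self (p i).v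
  let q : CovPair α (lp B ∞) := ⟨j, ⟨v0, hv0⟩, fun f => by
    refine lp.ext (funext fun i => ?_)
    exact (p i).cov f⟩
  refine ⟨lp B ∞, _i, q, fun i F => ?_⟩
  let π : lp B ∞ →⋆ₐ[ℂ] B i :=
    { toFun := fun x => x i
      map_one' := rfl
      map_mul' := fun _ _ => rfl
      map_zero' := rfl
      map_add' := fun _ _ => rfl
      commutes' := fun _ => rfl
      map_star' := fun _ => rfl }
  have h1 : π (q.ev F) = (p i).ev F := LPX_ev q (p i) π (fun _ => rfl) rfl F
  rw [← h1]
  exact lp.norm_apply_le_norm ENNReal.top_ne_zero (q.ev F) i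

end Pool.Agent.PV
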