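import Pool.Agent.helper53.PV.SpecD
import Pool.Agent.helper25.PV.LPX

set_option autoImplicit false

namespace Pool.Agent.PV

open Pool.Agent.CZ

/-- the span of the monomials -/
noncomputable def LSB_span {X : Type} [TopologicalSpace X] [CompactSpace X] {α : X ≃ₜ X} {P : Type}
    [CStarAlgebra P] (q : CovPair α P) : Submodule ℂ P :=
  Submodule.span ℂ {a : P | ∃ (f : C(X, ℂ)) (n : ℤ), a = q.j f * ((q.v ^ n : unitary P) : P)}

theorem LSB_mem {X : Type} [TopologicalSpace X] [CompactSpace X] {α : X ≃ₜ X} {P : Type}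
    [CStarAlgebra P] (q : CovPair α P) (f : C(X, ℂ)) (n : ℤ) : q.j f * up q.v n ∈ LSB_span q :=
  Submodule.subset_span ⟨f, n, rfl⟩

theorem LSB_one {X : Type} [TopologicalSpace X] [CompactSpace X] {α : X ≃ₜ X} {P : Type}
    [CStarAlgebra P] (q : CovPair α P) : (1 : P) ∈ LSB_span q := by
  have h := LSB_mem q 1 0
  have h1 : up q.v 0 = 1 := by
    unfold up
    rw [zpow_zero]
    rfl
  rwa [map_one, h1, one_mul] at h

/-- the star subalgebra of the finite sums -/
noncomputable def LSB_alg (hLEV : LEV_stmt) {X : Type} [TopologicalSpace X] [CompactSpace X]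
    {α : X ≃ₜ X} {P : Type} [CStarAlgebra P] (q : CovPair α P) : StarSubalgebra ℂ P where
  carrier := LSB_span q
  mul_mem' := by
    intro a b ha hb
    have h1 : a * b ∈ LSB_span q * LSB_span q := Submodule.mul_mem_mul ha hb
    have h2 : LSB_span q * LSB_span q ≤ LSB_span q := by
      unfold LSB_span
      rw [Submodule.span_mul_span]
      refine Submodule.span_mono ?_
      rintro _ ⟨_, ⟨f, n, rfl⟩, _, ⟨g, m, rfl⟩, rfl⟩
      exact ⟨_, _, (hLEV X α P q).2.2.2.2.1 f g n m⟩
    exact h2 h1
  one_mem' := LSB_one q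
  add_mem' := fun ha hb => (LSB_span q).add_mem ha hb
  zero_mem' := (LSB_span q).zero_mem
  algebraMap_mem' := fun z => by
    rw [Algebra.algebraMap_eq_smul_one]
    exact (LSB_span q).smul_mem z (LSB_one q)
  star_mem' := by
    intro a ha
    induction ha using Submodule.span_induction with
    | mem x hx =>
      obtain ⟨f, n, rfl⟩ := hx
      have h1 := (hLEV X α P q).2.2.2.2.2.1 f n
      change star (q.j f * up q.v n) ∈ LSB_span q
      rw [h1]
      exact LSB_mem q _ _
    | zero =>
      rw [star_zero]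
      exact (LSB_span q).zero_mem
    | add x y _ _ hx hy =>
      rw [star_add]
      exact (LSB_span q).add_mem hx hy
    | smul z x _ hx =>
      rw [star_smul]
      exact (LSB_span q).smul_mem _ hx

theorem LSB (hLEV : LEV_stmt) : LSB_stmt := by
  intro X _ _ α P _ q
  let S := (LSB_alg hLEV q).topologicalClosure
  have hS : IsClosed (S : Set P) := StarSubalgebra.isClosed_topologicalClosure _
  let _i : CStarAlgebra S := StarSubalgebra.cstarAlgebra S (h_closed := hS)
  have hle : ∀ x ∈ LSB_span q, x ∈ S := fun x hx => StarSubalgebra.le_topologicalClosure _ hx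
  have hj : ∀ f, q.j f ∈ S := by
    intro f
    have h := LSB_mem q f 0
    have h1 : up q.v 0 = 1 := by
      unfold up
      rw [zpow_zero]
      rfl
    rw [h1, mul_one] at h
    exact hle _ h
  have hv : (q.v : P) ∈ S := by
    have h := LSB_mem q 1 1
    have h1 : up q.v 1 = q.v := by
      unfold up
      rw [zpow_one]
    rw [h1, map_one, one_mul] at h
    exact hle _ h
  have hvu : (⟨q.v, hv⟩ : S) ∈ unitary S := by
    rw [Unitary.mem_iff]
    constructor
    · exact Subtype.ext (Unitary.coe_star_mul_self q.v)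
    · exact Subtype.ext (Unitary.coe_mul_star_self q.v)
  let q' : CovPair α S := ⟨q.j.codRestrict S hj, ⟨⟨q.v, hv⟩, hvu⟩, fun f =>
    Subtype.ext (q.cov f)⟩
  have hev : ∀ F, ((q'.ev F : S) : P) = q.ev F :=
    fun F => LPX_ev q' q S.subtype (fun _ => rfl) rfl F
  refine ⟨S, _i, q', fun F => ?_, ?_⟩
  · rw [← hev]
    rfl
  · rw [Subtype.dense_iff]
    intro x hx
    have h1 : (S : Set P) = closure (LSB_span q : Set P) :=
      StarSubalgebra.topologicalClosure_coe _
    have h2 : x ∈ closure (LSB_span q : Set P) := by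
      rw [← h1]
      exact hx
    refine closure_mono ?_ h2
    intro a ha
    obtain ⟨F, rfl⟩ := ((hLEV X α P q).2.2.2.2.2.2 a).1 ha
    refine ⟨q'.ev F, ?_, hev F⟩
    exact ((hLEV X α S q').2.2.2.2.2.2 _).2 ⟨F, rfl⟩

end Pool.Agent.PV
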