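import Pool.Agent.helper53.PV.SpecD

set_option autoImplicit false

namespace Pool.Agent.PV

open Pool.Agent.CZ

theorem LUN_up_one {A : Type} [CStarAlgebra A] (u : unitary A) : up u 1 = u := by
  unfold up
  rw [zpow_one]

theorem LUN_up_zero {A : Type} [CStarAlgebra A] (u : unitary A) : up u 0 = 1 := by
  unfold up
  rw [zpow_zero]
  rfl

theorem LUN (hLEV : LEV_stmt) (hLEX : LEX_stmt) : LUN_stmt := by
  intro X _ _ α A _ q hd hle
  refine ⟨q.cov, hd, fun B _ j v hcov => ?_⟩
  let p : CovPair α B := ⟨j, v, hcov⟩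
  obtain ⟨a1, a2, a3, a4, a5, a6, a7⟩ := hLEV X α A q
  obtain ⟨b1, b2, b3, b4, b5, b6, b7⟩ := hLEV X α B p
  let S : (ℤ →₀ C(X, ℂ)) →ₗ[ℂ] A := { toFun := q.ev, map_add' := a1, map_smul' := a2 }
  let T : (ℤ →₀ C(X, ℂ)) →ₗ[ℂ] B := { toFun := p.ev, map_add' := b1, map_smul' := b2 }
  have hdr : DenseRange S := by
    refine hd.mono ?_
    intro a ha
    obtain ⟨F, rfl⟩ := (a7 a).1 ha
    exact ⟨F, rfl⟩
  obtain ⟨Φ, hΦ⟩ := hLEX _ A B S T hdr (hle B p)
  have hΦ1 : ∀ F, Φ (q.ev F) = p.ev F := hΦ
  have hm : ∀ f n, Φ (q.j f * up q.v n) = p.j f * up p.v n := by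
    intro f n
    rw [← a3, ← b3, hΦ1]
  have hmul1 : ∀ (f : C(X, ℂ)) (n : ℤ) (F : ℤ →₀ C(X, ℂ)),
      Φ (q.j f * up q.v n * q.ev F) = p.j f * up p.v n * p.ev F := by
    intro f n F
    induction F using Finsupp.induction_linear with
    | zero =>
      have e1 : q.ev 0 = 0 := by unfold CovPair.ev; exact Finsupp.sum_zero_index
      have e2 : p.ev 0 = 0 := by unfold CovPair.ev; exact Finsupp.sum_zero_index
      rw [e1, e2, mul_zero, mul_zero, map_zero]
    | add F G hF hG => rw [a1, b1, mul_add, mul_add, map_add, hF, hG]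
    | single m g => rw [a3, b3, a5, b5, hm]
  have hmul2 : ∀ F G : ℤ →₀ C(X, ℂ), Φ (q.ev F * q.ev G) = p.ev F * p.ev G := by
    intro F G
    induction F using Finsupp.induction_linear with
    | zero =>
      have e1 : q.ev 0 = 0 := by unfold CovPair.ev; exact Finsupp.sum_zero_index
      have e2 : p.ev 0 = 0 := by unfold CovPair.ev; exact Finsupp.sum_zero_index
      rw [e1, e2, zero_mul, zero_mul, map_zero]
    | add F F' hF hG => rw [a1, b1, add_mul, add_mul, map_add, hF, hG]
    | single m g => rw [a3, b3, hmul1]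
  have hstar1 : ∀ F : ℤ →₀ C(X, ℂ), Φ (star (q.ev F)) = star (p.ev F) := by
    intro F
    induction F using Finsupp.induction_linear with
    | zero =>
      have e1 : q.ev 0 = 0 := by unfold CovPair.ev; exact Finsupp.sum_zero_index
      have e2 : p.ev 0 = 0 := by unfold CovPair.ev; exact Finsupp.sum_zero_index
      rw [e1, e2, star_zero, star_zero, map_zero]
    | add F F' hF hG => rw [a1, b1, star_add, star_add, map_add, hF, hG]
    | single m g => rw [a3, b3, a6, b6, hm]
  have hdr' : DenseRange q.ev := hdr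
  have hmul : ∀ a b, Φ (a * b) = Φ a * Φ b := by
    intro a b
    have h1 : (fun x : A × A => Φ (x.1 * x.2)) = fun x : A × A => Φ x.1 * Φ x.2 := by
      refine (hdr'.prodMap hdr').equalizer (by fun_prop) (by fun_prop) ?_
      funext x
      simp only [Function.comp_apply, Prod.map_fst, Prod.map_snd]
      rw [hmul2, hΦ1, hΦ1]
    exact congrFun h1 (a, b)
  have hstar : ∀ a, Φ (star a) = star (Φ a) := by
    intro a
    have h1 : (fun x : A => Φ (star x)) = fun x : A => star (Φ x) := by
      refine hdr'.equalizer (by fun_prop) (by fun_prop) ?_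
      funext x
      simp only [Function.comp_apply]
      rw [hstar1, hΦ1]
    exact congrFun h1 a
  have hj : ∀ f, Φ (q.j f) = j f := by
    intro f
    have h1 := hm f 0
    rw [LUN_up_zero, LUN_up_zero, mul_one, mul_one] at h1
    exact h1
  have hone : Φ 1 = 1 := by
    have h1 := hj 1
    rwa [map_one q.j, map_one j] at h1
  refine ⟨{ toFun := Φ
            map_one' := hone
            map_mul' := hmul
            map_zero' := map_zero Φ
            map_add' := map_add Φ
            commutes' := fun z => by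
              rw [Algebra.algebraMap_eq_smul_one, Algebra.algebraMap_eq_smul_one]
              change Φ (z • 1) = _
              rw [map_smul, hone]
            map_star' := hstar }, hj, ?_⟩
  have h1 := hm 1 1
  rw [LUN_up_one, LUN_up_one, map_one q.j, map_one p.j, one_mul, one_mul] at h1
  exact h1

end Pool.Agent.PV
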